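import Pool.Agent.H88.S6F.Pro

/-!
# The integer levels of the falling case
-/

set_option autoImplicit false

namespace Pool.S6C

open Finset Real

/-- **(LEV)** -/
theorem lev_thm : LevStmt := by
  intro N ρ v hρ hv
  obtain ⟨Dn, hDn⟩ : ∃ Dn : ℕ, Dn = ⌈1 / ρ⌉₊ + 1 := ⟨_, rfl⟩
  have hDn0 : 0 < Dn := by omega
  have hDn1 : (1 : ℝ) ≤ Dn := by exact_mod_cast hDn0
  have hDnρ : 1 ≤ ρ * Dn := by
    have h1 : 1 / ρ ≤ Dn := by
      rw [hDn]
      push_cast
      have := Nat.le_ceil (1 / ρ)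
      linarith only [this]
    rw [div_le_iff₀ hρ] at h1
    linarith only [h1]
  have hvρ : 0 < v - ρ := by linarith only [hv]
  have hN0 : (0 : ℝ) ≤ N := Nat.cast_nonneg N
  obtain ⟨K, hK⟩ : ∃ K : ℝ, K = N * (ρ * Dn) := ⟨_, rfl⟩
  have hK0 : 0 ≤ K := by rw [hK]; positivity
  obtain ⟨lam, hlam⟩ : ∃ lam : ℝ, lam = (K + 2) / (v - ρ) + 1 := ⟨_, rfl⟩
  have hlam1 : 1 ≤ lam := by
    have : 0 < (K + 2) / (v - ρ) := by positivity
    linarith only [hlam, this]
  have hlamK : K + 2 ≤ (v - ρ) * lam := by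
    rw [hlam, mul_add, mul_div_cancel₀ _ hvρ.ne']
    linarith only [hv]
  obtain ⟨mu, hmu⟩ : ∃ mu : ℝ, mu = N * Dn + 1 / ρ + 1 := ⟨_, rfl⟩
  have h1ρ : 0 < 1 / ρ := by positivity
  have hND : (0 : ℝ) ≤ N * Dn := by positivity
  have hmu1 : 1 ≤ mu := by linarith only [hmu, h1ρ, hND]
  have hmuK : K + 1 ≤ ρ * mu := by
    have h1 : ρ * mu = K + 1 + ρ := by
      rw [hmu, hK]
      field_simp
    linarith only [hρ, h1]
  exact by
   obtain ⟨C₀, hC₀⟩ : ∃ C₀ : ℝ, C₀ = 2 * (lam + 1) + 2 * (mu + 1) + K + 2 + ρ * Dn + Dn +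
     2 * (N * Dn) + 1 := ⟨_, rfl⟩
   have hρD : 0 ≤ ρ * Dn := by linarith only [hDnρ]
   refine ⟨Dn, C₀, hDn0, by linarith only [hDn1, hDnρ, hK0, hlam1, hmu, h1ρ, hND, hC₀], ?_⟩
   intro x e L g wr v₀ hx he hex hCL hLw hLv hLg
   have hex' : 1000 * e ≤ x := by nlinarith only [hex, hρ, he]
   have hL0 : 0 < L := lt_of_lt_of_le (mul_pos (by linarith only [hDn1, hDnρ, hK0, hlam1, hmu, h1ρ, hND, hC₀]) hx) hCL
   obtain ⟨ul, hul1, hul2⟩ := exists_rat_btwn (show wr - (lam + 1) * x < wr - lam * x by linarith only [he, hex'])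
   obtain ⟨us, hus1, hus2⟩ := exists_rat_btwn (show wr + mu * x < wr + (mu + 1) * x by linarith only [he, hex'])
   obtain ⟨J₁, hJ₁⟩ := exists_nat_gt ((N + v + ρ + 10) / e)
   have hlx : 0 ≤ lam * x := by positivity
   have hmx : 0 ≤ mu * x := by positivity
   refine ⟨ul, us, J₁, ?_, ?_, fun J hJ => ?_⟩
   · rw [abs_le]
     have : (lam + 1) * x ≤ C₀ * x := mul_le_mul_of_nonneg_right (by linarith only [hDn1, hDnρ, hK0, hlam1, hmu, h1ρ, hND, hC₀]) hx.le
     constructor <;> linarith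
   · rw [abs_le]
     have : (mu + 1) * x ≤ C₀ * x := mul_le_mul_of_nonneg_right (by linarith only [hDn1, hDnρ, hK0, hlam1, hmu, h1ρ, hND, hC₀]) hx.le
     constructor <;> linarith
   have hJe : N + v + ρ + 10 < e * J := by
     have h1 : (N + v + ρ + 10) / e < J := hJ₁.trans_le (by exact_mod_cast hJ)
     rw [div_lt_iff₀ he] at h1
     linarith only [h1]
   have hJ0 : (0 : ℝ) ≤ J := Nat.cast_nonneg J
   have hJpos : (0 : ℝ) < J := by
     by_contra h
     have : (J : ℝ) = 0 := le_antisymm (not_lt.1 h) hJ0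
     rw [this, mul_zero] at hJe
     linarith only [hρ, hv, hJe]
   have hv0 : 0 < v := hρ.trans hv
   exact by
    obtain ⟨X, hX⟩ : ∃ X : ℕ, X = ⌊x * (J : ℝ)⌋₊ := ⟨_, rfl⟩
    have hXle : (X : ℝ) ≤ x * J := by rw [hX]; exact Nat.floor_le (by positivity)
    have hX0 : (0 : ℝ) ≤ X := Nat.cast_nonneg X
    rw [← hX]
    -- multiples of `J`
    have xJ : 1000 * (e * J) ≤ x * J := by
      have := mul_le_mul_of_nonneg_right hex' hJ0
      linarith only [this]
    have LJ : C₀ * (x * J) ≤ L * J := by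
      have := mul_le_mul_of_nonneg_right hCL hJ0
      linarith only [this]
    have x0J : 0 < x * J := by positivity
    have hwJ : L * J ≤ wr * J := mul_le_mul_of_nonneg_right hLw.le hJ0
    have hvJ : L * J ≤ v₀ * J := mul_le_mul_of_nonneg_right hLv.le hJ0
    have hgJ : L * J ≤ (g - wr - v₀) * J := mul_le_mul_of_nonneg_right hLg.le hJ0
    have hLJ0 : 0 ≤ L * J := by positivity
    have cK : K * (x * J) + 2 * (x * J) ≤ L * J := by
      have : (K + 2) * (x * J) ≤ C₀ * (x * J) := mul_le_mul_of_nonneg_right (by linarith only [hDn1, hDnρ, hlam1, hmu, h1ρ, hND, hC₀]) x0J.le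
      linarith only [this, LJ]
    have KX : K * X ≤ K * (x * J) := mul_le_mul_of_nonneg_left hXle hK0
    have hKx : 0 ≤ K * (x * J) := by positivity
    -- the levels
    obtain ⟨w₀, hw₀⟩ : ∃ w₀ : ℕ, w₀ = ⌊wr * (J : ℝ)⌋₊ := ⟨_, rfl⟩
    have hw1 : (w₀ : ℝ) ≤ wr * J := by
      rw [hw₀]
      exact Nat.floor_le (by linarith only [hwJ, hLJ0])
    have hw2 : wr * J < w₀ + 1 := by rw [hw₀]; exact Nat.lt_floor_add_one _
    obtain ⟨r, hr⟩ : ∃ r : ℕ, r = ⌊ρ * Dn * (X : ℝ)⌋₊ := ⟨_, rfl⟩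
    have hr1 : (r : ℝ) ≤ ρ * Dn * X := by rw [hr]; exact Nat.floor_le (by positivity)
    have hr2 : ρ * Dn * X < r + 1 := by rw [hr]; exact Nat.lt_floor_add_one _
    exact by
     obtain ⟨R0, hR0⟩ : ∃ R0 : ℕ, R0 = ⌊(g - wr) * J + ρ * (w₀ - wr * J) - 25 * e * J⌋₊ :=
       ⟨_, rfl⟩
     have hρw : -ρ ≤ ρ * (w₀ - wr * J) := by
       have := mul_le_mul_of_nonneg_left (show -1 ≤ (w₀ : ℝ) - wr * J by linarith only [hw2]) hρ.le
       linarith only [this]
     have hρw' : ρ * (w₀ - wr * J) ≤ 0 := by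
       have := mul_le_mul_of_nonneg_left (show (w₀ : ℝ) - wr * J ≤ 0 by linarith only [hw1]) hρ.le
       linarith only [this]
     have hvw : -v ≤ v * (w₀ - wr * J) := by
       have := mul_le_mul_of_nonneg_left (show -1 ≤ (w₀ : ℝ) - wr * J by linarith only [hw2]) hv0.le
       linarith only [this]
     have hvw' : v * (w₀ - wr * J) ≤ 0 := by
       have := mul_le_mul_of_nonneg_left (show (w₀ : ℝ) - wr * J ≤ 0 by linarith only [hw1]) hv0.le
       linarith only [this]
     have hR1 : (R0 : ℝ) ≤ (g - wr) * J + ρ * (w₀ - wr * J) - 25 * e * J := by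
       rw [hR0]
       exact Nat.floor_le (by linarith only [hvJ, hgJ, hρw, xJ, cK, hKx, hJe, hN0, hv0, hρ])
     have hR2 : (g - wr) * J + ρ * (w₀ - wr * J) - 25 * e * J < R0 + 1 := by
       rw [hR0]
       exact Nat.lt_floor_add_one _
     have hNr1 : (N : ℝ) * r ≤ K * X := by
       have := mul_le_mul_of_nonneg_left hr1 hN0
       rw [hK]
       linarith only [this]
     have hNr0 : (0 : ℝ) ≤ (N : ℝ) * r := by positivity
     obtain ⟨H, hH⟩ : ∃ H : ℕ, H = ⌈(R0 : ℝ) + N * r - v₀ * J - v * (w₀ - wr * J) +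
       20 * e * J⌉₊ := ⟨_, rfl⟩
     have hH1 : (R0 : ℝ) + N * r - v₀ * J - v * (w₀ - wr * J) + 20 * e * J ≤ H := by
       rw [hH]
       exact Nat.le_ceil _
     exact by
      have hH2 : (H : ℝ) < (R0 : ℝ) + N * r - v₀ * J - v * (w₀ - wr * J) + 20 * e * J + 1 := by
        rw [hH]
        exact Nat.ceil_lt_add_one (by
          linarith only [hR2, hgJ, hρw, hvw', hNr0, xJ, cK, hKx, hJe, hN0, hv0, hρ])
      have hHR : H ≤ R0 := by
        have h1 : (H : ℝ) < R0 + 1 := by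
          linarith only [hH2, hNr1, KX, cK, hvJ, hvw, xJ, hJe, hN0, hv0, hρ]
        have h2 : H < R0 + 1 := by exact_mod_cast h1
        omega
      have hV : ((R0 - H : ℕ) : ℝ) = R0 - H := Nat.cast_sub hHR
      have hDXJ : (N : ℝ) * (Dn * X) ≤ N * Dn * (x * J) := by
        have := mul_le_mul_of_nonneg_left hXle hND
        linarith only [this]
      have cND : 2 * (N * Dn) * (x * J) ≤ C₀ * (x * J) :=
        mul_le_mul_of_nonneg_right (by linarith only [hDn1, hDnρ, hK0, hlam1, hmu, h1ρ, hND, hC₀]) x0J.le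
      refine ⟨w₀, r, R0 - H, H, by linarith only [hDnρ, hK0, hlam1, hmu, h1ρ, hND, hC₀], ?_, ?_⟩
      · refine hr1.trans (mul_le_mul_of_nonneg_right (by linarith only [hDn1, hK0, hlam1, hmu, h1ρ, hND, hC₀]) hX0)
      refine ⟨?_, ?_, ?_, ?_, ?_, ?_, ?_, ?_, ?_, ?_, ?_, ?_, ?_⟩
      · -- zl
        linarith only [hw2, xJ, cK, hKx, hJe, hN0, hv0, hρ]
      · -- zu
        push_cast
        linarith only [hw1, hDXJ, cND, LJ]
      · -- ul0
        have : 2 * (lam + 1) * x ≤ C₀ * x := mul_le_mul_of_nonneg_right (by linarith only [hDn1, hDnρ, hK0, hmu, h1ρ, hND, hC₀]) hx.le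
        linarith only [this, hCL, hul1]
      · -- ul1
        have h1 : (ul : ℝ) * J ≤ (wr - lam * x) * J := mul_le_mul_of_nonneg_right hul2.le hJ0
        have h2 : 1 * (x * J) ≤ lam * (x * J) := mul_le_mul_of_nonneg_right hlam1 x0J.le
        linarith only [h1, h2, hw2, xJ, hJe, hN0, hv0, hρ]
      · -- us0
        push_cast
        have h1 : (wr + mu * x) * J ≤ (us : ℝ) * J := mul_le_mul_of_nonneg_right hus1.le hJ0
        have h2 : (N * Dn + 1) * (x * J) ≤ mu * (x * J) :=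
          mul_le_mul_of_nonneg_right (by linarith only [hmu, h1ρ]) x0J.le
        linarith only [h1, h2, hw1, hDXJ, xJ, hJe, hN0, hv0, hρ]
      · -- us1
        have : 2 * (mu + 1) * x ≤ C₀ * x := mul_le_mul_of_nonneg_right (by linarith only [hDn1, hDnρ, hK0, hlam1, hND, hC₀]) hx.le
        linarith only [this, hCL, hus2]
      · -- XΔ
        exact Nat.le_mul_of_pos_left X hDn0
      · -- Xr
        rw [hr]
        refine Nat.le_floor ?_
        have := mul_le_mul_of_nonneg_right hDnρ hX0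
        linarith only [this]
      · -- va
        push_cast
        rw [hV]
        linarith only [hH1]
      · -- rt
        intro i hi
        push_cast
        rw [hV]
        have hi0 : (0 : ℝ) ≤ i := Nat.cast_nonneg i
        have h1 := mul_le_mul_of_nonneg_left hr1 hi0
        linarith only [h1, hR1, hJe, hN0, hv0, hρ]
      · -- rt'
        intro i hi
        push_cast
        rw [hV]
        have hi0 : (0 : ℝ) ≤ i := Nat.cast_nonneg i
        have hiN : (i : ℝ) ≤ N := by exact_mod_cast hi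
        have h1 := mul_le_mul_of_nonneg_left hr2.le hi0
        linarith only [h1, hiN, hR2, hJe, hN0, hv0, hρ]
      · -- hs
        push_cast
        have h1 : lam * x ≤ wr - ul := by linarith only [hul2]
        have h2 : (v - ρ) * (lam * x) * J ≤ (v - ρ) * (wr - ul) * J :=
          mul_le_mul_of_nonneg_right (mul_le_mul_of_nonneg_left h1 hvρ.le) hJ0
        have h3 : (K + 2) * (x * J) ≤ (v - ρ) * lam * (x * J) :=
          mul_le_mul_of_nonneg_right hlamK x0J.le
        linarith only [h2, h3, hH2, hR1, hρw', hvw, hNr1, KX, hXle, xJ, hJe, hN0, hv0, hρ]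
      · -- rs
        push_cast
        rw [hV]
        have h1 : mu * x ≤ us - wr := by linarith only [hus1]
        have h2 : ρ * (mu * x) * J ≤ ρ * (us - wr) * J :=
          mul_le_mul_of_nonneg_right (mul_le_mul_of_nonneg_left h1 hρ.le) hJ0
        have h3 : (K + 1) * (x * J) ≤ ρ * mu * (x * J) :=
          mul_le_mul_of_nonneg_right hmuK x0J.le
        linarith only [h2, h3, hR1, hρw', hNr1, KX, hXle, hJe, hN0, hv0, hρ]

end Pool.S6C
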