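import Pool.Agent.H35.ZCL.Asec
import Pool.Agent.H42.PB.ClG
import Pool.Agent.H40.S6.Ev

/-!
# CROSS, step 3: the step at the top row in the sections of the A-zoom

`az_hyp_at`: the hypotheses of the zoom hold for the A-zoom of every event of a
small defect with given frames. `az_step3`: if the A-zoom has a chart and a label
in balls at exact points on its whole support, then its sections contain large
events with an implicit label on the grid, on the whole window.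
-/

set_option autoImplicit false

namespace Pool.ZCL

open Finset Real
open Pool.Agent.H49.Ent Pool.Agent.H32.Dense Pool.STK Pool.KA Pool.KSAT Pool.K2S Pool.PB Pool.S6C

/-- **The hypotheses of the zoom hold for the A-zoom with given frames.** -/
theorem az_hyp_at {S : PCl 3} {a R h₁ : ℝ} {i₀ : Fin 3} {Q pi : ℝ} (H : AzH S a R h₁ i₀ Q pi)
    {c : ℝ} (hT : BTail S c Q) {e : ℝ} (he : 0 < e) {gs : ℕ → ℝ} (hg0 : ∀ i, 0 < gs i)
    (hg1 : ∀ i, gs i ≤ 1) : ∃ ψ : ℕ → ℝ, (∀ i, 0 < ψ i) ∧ ∀ (n : ℕ) (η : ℝ), 0 < η →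
    ∃ ψ₁ > 0, ∀ w s : ℝ, 0 ≤ w → w + max s 0 + e ≤ Q → (∀ i ≤ n, pi - e * gs i / 16 ≤ s) →
    ∀ J₀ : ℕ, ∃ J₁ : ℕ, ∀ J ≥ J₁, ∀ (F : Fam 3 J) (A : F.Ω → Prop), S.St ψ₁ J F A →
    ∀ z : F.Ω → Fin 3 → ℝ, AzF F i₀ ⌊Q * J⌋₊ ⌊s * J⌋₊ ⌊w * J⌋₊ A z →
    ∀ (hA : IsLaw (cond F.p A True)) (h : ⌊w * J⌋₊ + azJ Q w s J ≤ J),
      J₀ ≤ azJ Q w s J ∧ e / 2 * J ≤ azJ Q w s J ∧
      ZHyp (azG F i₀ Q w s A z hA h) gs (c * Real.log 2) ψ n η := by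
  classical
  have hS : ∀ i : ℕ, ∃ ψ > 0, ∀ w s : ℝ, 0 ≤ w →
      w + max s 0 + e ≤ Q → pi - e * gs i / 16 ≤ s → ∃ J₁ : ℕ, ∀ J ≥ J₁, ∀ (F : Fam 3 J)
      (A : F.Ω → Prop), S.St ψ J F A → ∀ z : F.Ω → Fin 3 → ℝ,
      AzF F i₀ ⌊Q * J⌋₊ ⌊s * J⌋₊ ⌊w * J⌋₊ A z → ∀ (h : ⌊w * J⌋₊ + azJ Q w s J ≤ J)
      (hA : IsLaw (cond F.p A True)) (B : F.Ω → Prop),
      Real.exp (-(3 * ψ * azJ Q w s J)) ≤ Pe (cond F.p A True) B →
      ¬ PlU 1 (1 / 2 ^ ⌊gs i * azJ Q w s J⌋₊)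
        (Fam.pt (azG F i₀ Q w s A z hA h)) (azG F i₀ Q w s A z hA h).d B :=
    fun i => az_S_bas H he (hg0 i) (hg1 i)
  choose ψS hS0 hS1 using hS
  have hR : ∀ i : ℕ, _ := fun i : ℕ => az_R_bas H hT he (by positivity : 0 < 1 / ((i : ℝ) + 1))
  choose ψR hR0 hR1 using hR
  obtain ⟨ψ, hψ⟩ : ∃ ψ : ℕ → ℝ, ψ = fun i => min (ψS i) (ψR i) := ⟨_, rfl⟩
  have hψ0 : ∀ i, 0 < ψ i := fun i => by
    rw [hψ]
    exact lt_min (hS0 i) (hR0 i)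
  have hψS : ∀ i, ψ i ≤ ψS i := fun i => by
    rw [hψ]
    exact min_le_left _ _
  have hψR : ∀ i, ψ i ≤ ψR i := fun i => by
    rw [hψ]
    exact min_le_right _ _
  refine ⟨ψ, hψ0, fun n η hη => ?_⟩
  have ha := H.a1
  obtain ⟨μ, hμ0, hμ⟩ := exists_low hψ0 n
  obtain ⟨ψ₁, hψ₁⟩ : ∃ ψ₁, ψ₁ = min μ (η * e / (12 * (1 + a))) := ⟨_, rfl⟩
  have hψ₁0 : 0 < ψ₁ := by rw [hψ₁]; exact lt_min hμ0 (by positivity)
  have hψ₁1 : ψ₁ ≤ μ := by rw [hψ₁]; exact min_le_left _ _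
  have hψ₁2 : ψ₁ ≤ η * e / (12 * (1 + a)) := by rw [hψ₁]; exact min_le_right _ _
  refine ⟨ψ₁, hψ₁0, fun w s hw0 hws hs J₀ => ?_⟩
  -- the resolutions
  have hJS : ∀ i : ℕ, ∃ J₁ : ℕ, i ≤ n → ∀ J ≥ J₁, ∀ (F : Fam 3 J)
      (A : F.Ω → Prop), S.St (ψS i) J F A → ∀ z : F.Ω → Fin 3 → ℝ,
      AzF F i₀ ⌊Q * J⌋₊ ⌊s * J⌋₊ ⌊w * J⌋₊ A z → ∀ (h : ⌊w * J⌋₊ + azJ Q w s J ≤ J)
      (hA : IsLaw (cond F.p A True)) (B : F.Ω → Prop),
      Real.exp (-(3 * ψS i * azJ Q w s J)) ≤ Pe (cond F.p A True) B →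
      ¬ PlU 1 (1 / 2 ^ ⌊gs i * azJ Q w s J⌋₊)
        (Fam.pt (azG F i₀ Q w s A z hA h)) (azG F i₀ Q w s A z hA h).d B := by
    intro i
    by_cases hi : i ≤ n
    · obtain ⟨J₁, h1⟩ := hS1 i w s hw0 hws (hs i hi)
      exact ⟨J₁, fun _ => h1⟩
    · exact ⟨0, fun h => absurd h hi⟩
  choose JS hJS using hJS
  have hJR : ∀ i : ℕ, _ := fun i : ℕ => hR1 i w s hw0 hws
  choose JR hJR using hJR
  obtain ⟨J₂, hJ₂⟩ : ∃ J₂ : ℕ, ∀ i ≤ n, JS i ≤ J₂ ∧ JR i ≤ J₂ := by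
    refine ⟨∑ i ∈ range (n + 1), (JS i + JR i), fun i hi => ?_⟩
    have := Finset.single_le_sum (f := fun i => JS i + JR i) (fun _ _ => Nat.zero_le _)
      (Finset.mem_range.2 (by omega : i < n + 1))
    constructor <;> omega
  obtain ⟨J₃, hJ₃⟩ := exists_nat_gt (2 / e + 2 * J₀ / e)
  refine ⟨max J₂ J₃, fun J hJ F A hStA z hz hlaw hh => ?_⟩
  have hJ2 : J₂ ≤ J := (le_max_left _ _).trans hJ
  have hJ3 : 2 / e + 2 * J₀ / e < J := hJ₃.trans_le (by exact_mod_cast (le_max_right _ _).trans hJ)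
  have q1 : 0 < 2 / e := by positivity
  have q2 : 0 ≤ 2 * (J₀ : ℝ) / e := by positivity
  have hJr : (0 : ℝ) < J := by linarith
  have hStt := H.st _ _ _ _ hStA
  obtain ⟨hadd, hJ'⟩ := azJ_add he hw0 hws (J := J) (by linarith)
  obtain ⟨hlaw', -, hMx, -⟩ := hStt.res ha hψ₁0.le
  have hJ'0 : (0 : ℝ) ≤ (azJ Q w s J : ℝ) := Nat.cast_nonneg _
  refine ⟨?_, hJ', ⟨?_, ?_, ?_, ?_⟩⟩
  · have h2 : 2 * (J₀ : ℝ) / e < J := by linarith
    rw [div_lt_iff₀ he] at h2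
    have : (J₀ : ℝ) ≤ azJ Q w s J := by linarith
    exact_mod_cast this
  · -- times
    have h2 := hMx.1
    have h3 : (F.res A True hlaw).Tm (η * azJ Q w s J) := by
      unfold Fam.Tm at h2 ⊢
      have h4 : (1 + a) * (6 * ψ₁) * J ≤ η * azJ Q w s J := by
        have h5 : (1 + a) * (6 * ψ₁) ≤ η * (e / 2) := by
          rw [le_div_iff₀ (by positivity)] at hψ₁2
          linarith
        calc (1 + a) * (6 * ψ₁) * J ≤ η * (e / 2) * J := mul_le_mul_of_nonneg_right h5 hJr.le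
          _ = η * (e / 2 * J) := by ring
          _ ≤ _ := mul_le_mul_of_nonneg_left hJ' hη.le
      linarith
    refine zm_Tm (F.res A True hlaw) hh (Box.plkC ⌊s * J⌋₊ i₀) z ?_ h3
    intro ω ω' _ _ h4
    refine hz.win ω ω' ?_
    have h5 := Prod.ext_iff.1 h4
    have h6 := Prod.ext_iff.1 h5.2
    exact Prod.ext h5.1 (Prod.ext h6.2 h6.1)
  · -- lines
    intro y hy
    have h2 := zm_lines (F.res A True hlaw) hh (Box.plkC ⌊s * J⌋₊ i₀) z y hy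
    have e1 : 2 * ((3 : ℕ) : ℝ) * (azJ Q w s J : ℝ) = 6 * azJ Q w s J := by
      push_cast
      ring
    rw [e1] at h2
    exact h2
  · -- spread
    intro i hi B hB
    have hμi := hμ i hi
    have hSi : S.St (ψS i) J F A := S.mono (by linarith [hψS i]) hStA
    refine hJS i hi J ((hJ₂ i hi).1.trans hJ2) F A hSi z hz hh hlaw B (le_trans ?_ hB)
    refine Real.exp_le_exp.2 ?_
    have := mul_le_mul_of_nonneg_right (hψS i) hJ'0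
    linarith
  · -- the tail
    intro i hi B hB P hP _
    have hμi := hμ i hi
    have hSi : S.St (ψR i) J F A := S.mono (by linarith [hψR i]) hStA
    refine hJR i J ((hJ₂ i hi).2.trans hJ2) F A hSi z hz hh hlaw B (le_trans ?_ hB) P hP
    refine Real.exp_le_exp.2 ?_
    have := mul_le_mul_of_nonneg_right (hψR i) hJ'0
    linarith

/-- Samples of probability zero do not count. -/
theorem pe_null {Ω : Type} [Fintype Ω] {p : Ω → ℝ} {A : Ω → Prop} (h : ∀ ω, ¬ A ω → p ω = 0)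
    (B B' : Ω → Prop) (hB : ∀ ω, B ω → A ω → B' ω) (hp : ∀ ω, 0 ≤ p ω) : Pe p B ≤ Pe p B' := by
  classical
  rw [Pe_eq, Pe_eq]
  refine Finset.sum_le_sum fun ω _ => ?_
  by_cases hA : A ω
  · by_cases hBω : B ω
    · rw [if_pos hBω, if_pos (hB ω hBω hA)]
    · rw [if_neg hBω]
      split_ifs
      · exact hp ω
      · exact le_rfl
  · rw [h ω hA]
    split_ifs <;> simp

theorem cond_null {Ω V : Type} [Fintype Ω] {p : Ω → ℝ} {v : Ω → V} {y : V} {ω : Ω}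
    (h : p ω = 0) : cond p v y ω = 0 := by
  unfold Pool.Agent.H49.Ent.cond
  rw [h]
  split_ifs <;> simp

theorem cond_out {Ω : Type} [Fintype Ω] {p : Ω → ℝ} {A : Ω → Prop} {ω : Ω}
    (h : ¬ A ω) : cond p A True ω = 0 := by
  unfold Pool.Agent.H49.Ent.cond
  rw [if_neg]
  intro h1
  exact h (h1 ▸ trivial)

/-- The tail of the zooms is not full, with the same constant. -/
theorem tl_zg {m j : ℕ} {gs : ℕ → ℝ} {r : ℝ} {ψ : ℕ → ℝ} (hψ : ∀ i, 0 < ψ i) {η : ℝ}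
    (hη : 0 < η) : Clg (zg m j gs r ψ) (fun _ F A => Tl F r η A) := by
  obtain ⟨i, hi⟩ := exists_inv hη
  have hψi := hψ i
  refine Clg.of (τ := min (1 / ((i : ℝ) + 1)) (ψ i))
    (lt_min (by positivity) (by positivity)) 0 fun J _ F A hS => ?_
  intro P hP1 hP2
  by_contra hcon
  push Not at hcon
  have hJ : (0 : ℝ) ≤ J := Nat.cast_nonneg J
  have hiτ : (i : ℝ) * min (1 / ((i : ℝ) + 1)) (ψ i) ≤ 1 := by
    have h1 : min (1 / ((i : ℝ) + 1)) (ψ i) ≤ 1 / ((i : ℝ) + 1) := min_le_left _ _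
    have h2 : (0 : ℝ) ≤ i := Nat.cast_nonneg i
    calc (i : ℝ) * min (1 / ((i : ℝ) + 1)) (ψ i) ≤ i * (1 / ((i : ℝ) + 1)) :=
          mul_le_mul_of_nonneg_left h1 h2
      _ ≤ 1 := by
          rw [mul_one_div, div_le_one (by positivity)]
          linarith
  refine hS.1.2.2.2.2 i hiτ A ?_ (Or.inr ⟨P, hP1, hP2, ?_⟩)
  · refine le_trans ?_ hS.2
    refine Real.exp_le_exp.2 ?_
    have h1 : min (1 / ((i : ℝ) + 1)) (ψ i) * (J : ℝ) ≤ ψ i * J :=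
      mul_le_mul_of_nonneg_right (min_le_right _ _) hJ
    linarith
  · refine lt_of_le_of_lt ?_ hcon
    have := mul_le_mul_of_nonneg_right hi hJ
    linarith

/-- The claim of the step at the top row, for all charts and all labels in balls,
on all events of full relative probability. -/
def TopC (h : ℝ) (D Cs K N d : ℕ) (κ : ℝ) : Stat 3 := fun J F A =>
  ∀ E : F.Ω → Prop, Sub E A → 1 * Pe F.p A ≤ Pe F.p E →
    ∀ (i₁ : Fin 3) (i p : ℕ), i ≤ 2 * d → N ≤ p + d → p < N → Ch F i₁ ⌊h * J⌋₊ E →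
      Lab F i₁ J K (i * (J / N)) (i * (J / N)) (p * (J / N)) E →
      ∃ B : F.Ω → Prop, Sub B E ∧ Real.exp (-(κ * J)) * Pe F.p E ≤ Pe F.p B ∧
        ClG F i₁ J D 0 ((N - Cs * d) * (J / N)) B

/-- **The step at the top row in the class of zooms** of one scale of spread. -/
theorem top_zg (hJ : JSTT 3) {r h : ℝ} (hr : 0 < r) (hh : 0 < h) :
    ∃ D Cs E₀ : ℕ, ∀ E ≥ E₀, 0 < E → ∀ K : ℕ, ∃ N₁ : ℕ, ∀ N ≥ N₁, ∀ d : ℕ, N = E * d →
      ∃ g : ℝ, 0 < g ∧ g ≤ 1 ∧ ∀ (ψ : ℕ → ℝ), (∀ i, 0 < ψ i) → ∀ κ : ℝ, 0 < κ →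
        Clg (zg 3 1 (fun _ => g) r ψ) (TopC h D Cs K N d κ) := by
  obtain ⟨D, Cs, E₀, h1⟩ := hJ r h hr hh
  refine ⟨D, Cs, E₀, fun E hE hE0 K => ?_⟩
  obtain ⟨N₁, h2⟩ := h1 E hE hE0 K
  refine ⟨N₁, fun N hN d hNd => ?_⟩
  obtain ⟨η, g, hη, hg, h3⟩ := h2 N hN d hNd
  refine ⟨min g 1, lt_min hg one_pos, min_le_right _ _, fun ψ hψ κ hκ => ?_⟩
  have hψ0 : 0 < ψ 0 / 2 := by have := hψ 0; positivity
  have hSp := sp_zg (m := 3) (j := 1) (gs := fun _ => min g 1) (r := r) hψ 0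
    (g := g) (min_le_left _ _)
  have hTl := tl_zg (m := 3) (j := 1) (gs := fun _ => min g 1) (r := r) hψ hη
  have key : ∀ (q : Fin 3 × Fin (2 * d + 1) × Fin N), Clg (zg 3 1 (fun _ => min g 1) r ψ)
      (fun J F A => N ≤ (q.2.2 : ℕ) + d → Ch F q.1 ⌊h * J⌋₊ A →
        Lab F q.1 J K ((q.2.1 : ℕ) * (J / N)) ((q.2.1 : ℕ) * (J / N))
          ((q.2.2 : ℕ) * (J / N)) A →
        ∃ B : F.Ω → Prop, Sub B A ∧ Real.exp (-(κ * J)) * Pe F.p A ≤ Pe F.p B ∧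
          ClG F q.1 J D 0 ((N - Cs * d) * (J / N)) B) := by
    rintro ⟨i₁, i, p⟩
    simp only
    refine Clg.cnd fun hp => ?_
    have h4 := h3 i₁ i p (by have := i.2; omega) hp p.2 (ψ 0 / 2) κ hψ0 hκ
      (zg 3 1 (fun _ => min g 1) r ψ)
    have h5 := (h4.and (hTl.and hSp))
    refine Clg.mono (J₂ := 0) h5 ?_
    rintro J - F A ⟨k1, k2, k3⟩ k4 k5
    exact k1 k2 k3 k4 k5
  have hall := Clg.ev (Clg.finite key) (ϖ := 1) one_pos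
  refine Clg.mono (J₂ := 0) hall ?_
  intro J _ F A k E hE hP i₁ i p hi hp hpN hCh hLab
  exact k E hE hP (i₁, ⟨i, by omega⟩, ⟨p, hpN⟩) hp hCh hLab

/-- **CROSS, step 3.** The A-zoom at a window `w` and a precision `s` which is close to the
directions: if it has a chart and a label in balls at exact points on its whole support, then its
sections contain large events with an implicit label on the grid, on the whole window. The degree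
`D` depends on the tail `c` and on the chart `h` only; the scale `g` does not depend on the class,
on `e`, nor on the costs `δ`, `κ`. -/
theorem az_step3 (hJ : JSTT 3) {c h : ℝ} (hc : 0 < c) (hh : 0 < h) :
    ∃ D Cs E₀ : ℕ, ∀ E ≥ E₀, 0 < E → ∀ K : ℕ, ∃ N₁ : ℕ, ∀ N ≥ N₁, ∀ d : ℕ, N = E * d →
      ∃ g : ℝ, 0 < g ∧ g ≤ 1 ∧ ∀ {S : PCl 3} {a R h₁ : ℝ} {i₀ : Fin 3} {Q pi : ℝ},
        AzH S a R h₁ i₀ Q pi → BTail S c Q → ∀ e : ℝ, 0 < e → ∀ δ κ : ℝ, 0 < δ → 0 < κ →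
        ∃ ψ₁ > 0, ∀ w s : ℝ, 0 ≤ w → w + max s 0 + e ≤ Q → pi - e * g / 16 ≤ s →
        ∃ J₁ : ℕ, ∀ J ≥ J₁, ∀ (F : Fam 3 J) (A : F.Ω → Prop), S.St ψ₁ J F A →
        ∀ z : F.Ω → Fin 3 → ℝ, AzF F i₀ ⌊Q * J⌋₊ ⌊s * J⌋₊ ⌊w * J⌋₊ A z →
        ∀ (hA : IsLaw (cond F.p A True)) (hw : ⌊w * J⌋₊ + azJ Q w s J ≤ J),
          e / 2 * J ≤ azJ Q w s J ∧
          ∀ (i₁ : Fin 3) (i p : ℕ), i ≤ 2 * d → N ≤ p + d → p < N →
          Ch (azG F i₀ Q w s A z hA hw) i₁ ⌊h * azJ Q w s J⌋₊ A →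
          Lab (azG F i₀ Q w s A z hA hw) i₁ (azJ Q w s J) K (i * (azJ Q w s J / N))
            (i * (azJ Q w s J / N)) (p * (azJ Q w s J / N)) A →
          ∃ (V : Type) (v : F.Ω → V) (B : F.Ω → Prop), Sub B A ∧
            Sel (azG F i₀ Q w s A z hA hw) v B ∧
            Real.exp (-(δ * azJ Q w s J)) ≤ Pe (cond F.p A True) B ∧
            ∀ ω, 0 < cond F.p A True ω → B ω →
              ∀ hl : IsLaw (cond (cond F.p A True) v (v ω)), ∃ B' : F.Ω → Prop,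
                Sub B' (fun ω' => B ω' ∧ v ω' = v ω) ∧
                Real.exp (-(κ * azJ Q w s J)) *
                    Pe (cond (cond F.p A True) v (v ω)) (fun ω' => B ω' ∧ v ω' = v ω) ≤
                  Pe (cond (cond F.p A True) v (v ω)) B' ∧
                ClG ((azG F i₀ Q w s A z hA hw).res v (v ω) hl) i₁ (azJ Q w s J) D 0
                  ((N - Cs * d) * (azJ Q w s J / N)) B' := by
  classical
  obtain ⟨D, Cs, E₀, h1⟩ := top_zg hJ (r := c * Real.log 2) (h := h)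
    (mul_pos hc (Real.log_pos one_lt_two)) hh
  refine ⟨D, Cs, E₀, fun E hE hE0 K => ?_⟩
  obtain ⟨N₁, h2⟩ := h1 E hE hE0 K
  refine ⟨N₁, fun N hN d hNd => ?_⟩
  obtain ⟨g, hg, hg1, h3⟩ := h2 N hN d hNd
  refine ⟨g, hg, hg1, ?_⟩
  intro S a R h₁ i₀ Q pi H hT e he δ κ hδ hκ
  obtain ⟨ψ, hψ0, hyp⟩ := az_hyp_at H hT he (gs := fun _ => g) (fun _ => hg) (fun _ => hg1)
  obtain ⟨η, hη, n, J₀, hsec⟩ := zoom_sec_g hψ0 (h3 ψ hψ0 κ hκ) (B₀ := 6) (by norm_num) hδ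
  obtain ⟨ψ₁, hψ₁, hyp'⟩ := hyp n η hη
  refine ⟨ψ₁, hψ₁, fun w s hw0 hws hs => ?_⟩
  obtain ⟨J₁, hJ₁⟩ := hyp' w s hw0 hws (fun i _ => hs) J₀
  refine ⟨J₁, fun J hJJ F A hSt z hz hA hw => ?_⟩
  obtain ⟨k1, k2, k3⟩ := hJ₁ J hJJ F A hSt z hz hA hw
  refine ⟨k2, fun i₁ i p hi hp hpN hCh hLab => ?_⟩
  obtain ⟨V, v, B, l1, l2, l3⟩ := hsec _ k1 (azG F i₀ Q w s A z hA hw) k3.tm k3.ln k3.sp k3.tl
  have hnull : ∀ ω, ¬ A ω → cond F.p A True ω = 0 := fun ω hω => cond_out hω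
  refine ⟨V, v, fun ω => B ω ∧ A ω, fun ω hω => hω.2, l1.sub fun ω hω => hω.1, ?_, ?_⟩
  · exact le_trans l2 (pe_null hnull _ _ (fun ω h1 h2 => ⟨h1, h2⟩) hA.nonneg)
  · intro ω hω hB hl
    have m1 := l3 ω hω hB.1 hl (fun ω' => (B ω' ∧ A ω') ∧ v ω' = v ω)
      (fun ω' h' => ⟨h'.1.1, h'.2⟩) (by
        rw [one_mul]
        exact pe_null (p := cond (cond F.p A True) v (v ω))
          (fun ω' h' => cond_null (hnull ω' h')) _ _
          (fun ω' h1 h2 => ⟨⟨h1.1, h2⟩, h1.2⟩) hl.nonneg) i₁ i p hi hp hpN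
      (Ch.hered _ _ _ _ _ (fun ω' h' => h'.1.2) hCh)
      (Lab.hered _ _ _ _ _ _ _ _ _ (fun ω' h' => h'.1.2) hLab)
    exact m1

end Pool.ZCL
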