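import Pool.Agent.H10.S6U.Uz1

/-!
# LEMMA C (time shadow)

Let `a` be full to `j` digits given `b`, and let the time `θ` be full to `J'` digits
given `(a, D)` and `b`. Then `a + θ D` is full to `j` digits given `b` and `θ`, up to
a logarithm. Two samples of `(a, D)` which are independent given `(a + θ D, θ, b)`.
-/

set_option autoImplicit false

namespace Pool.S6U

open Finset Real
open Pool.Agent.H49.Ent Pool.Agent.H32.Dense Pool.STK Pool.KA Pool.KSAT Pool.K2S

namespace TSh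

/-- The scale of a difference. -/
noncomputable def scl (B j : ℕ) (x y : ℝ) : ℕ :=
  Nat.findGreatest (fun s => |x - y| ≤ 2 * B / 2 ^ s) j

theorem scl_le (B j : ℕ) (x y : ℝ) : scl B j x y ≤ j := Nat.findGreatest_le j

theorem scl_spec {B j : ℕ} {x y : ℝ} (hx : |x| ≤ B) (hy : |y| ≤ B) :
    |x - y| ≤ 2 * B / 2 ^ scl B j x y := by
  have h0 : |x - y| ≤ 2 * B / 2 ^ 0 := by
    rw [pow_zero, div_one]
    exact (abs_sub _ _).trans (by linarith)
  exact Nat.findGreatest_spec (P := fun s => |x - y| ≤ 2 * B / 2 ^ s) (Nat.zero_le j) h0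

theorem scl_lt {B j : ℕ} {x y : ℝ} (h : scl B j x y < j) :
    B / 2 ^ scl B j x y < |x - y| := by
  have h1 := Nat.findGreatest_is_greatest (P := fun s => |x - y| ≤ 2 * B / 2 ^ s)
    (k := scl B j x y + 1) (Nat.lt_succ_self _) h
  push Not at h1
  refine lt_of_le_of_lt (le_of_eq ?_) h1
  rw [pow_succ]
  field_simp

theorem log_pow_mul {c : ℝ} (hc : 0 < c) (n : ℕ) :
    Real.log (c * 2 ^ n) = Real.log c + n * Real.log 2 := by
  rw [Real.log_mul hc.ne' (by positivity), Real.log_pow]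

end TSh

open TSh

/-- **LEMMA C (time shadow).** -/
theorem time_shadow {Ω β : Type} [Fintype Ω] {p : Ω → ℝ} (hp : IsLaw p) (b : Ω → β)
    (a D θ : Ω → ℝ) {j J' B : ℕ} (hj : j ≤ J') (hB : 1 ≤ B)
    (hD : ∀ ω, 0 < p ω → |D ω| ≤ B) (hθ : ∀ ω, 0 < p ω → 0 ≤ θ ω ∧ θ ω ≤ 1) {d d' d'' : ℝ}
    (ha : j * Real.log 2 - d ≤ CH p (fun ω => ⌊(2 : ℝ) ^ j * a ω⌋) b)
    (ht : J' * Real.log 2 - d' ≤
      CH p (fun ω => ⌊(2 : ℝ) ^ J' * θ ω⌋) (fun ω => ((a ω, D ω), b ω)))
    (hI : CH p θ b - d'' ≤ CH p θ (fun ω => ((a ω, D ω), b ω))) :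
    j * Real.log 2 - (d + d' + d'' + 2 * Real.log (j + 1) + Real.log (8 * B + 9) + Real.log 7 +
      Real.log 3) ≤
      CH p (fun ω => ⌊(2 : ℝ) ^ j * (a ω + θ ω * D ω)⌋) (fun ω => (b ω, θ ω)) := by
  classical
  have h0 := hp.nonneg
  set M : Ω → ℤ := fun ω => ⌊(2 : ℝ) ^ j * (a ω + θ ω * D ω)⌋ with hM
  set L : Ω → ℝ × ℝ := fun ω => (a ω, D ω) with hL
  set Z : Ω → ℤ × (β × ℝ) := fun ω => (M ω, (b ω, θ ω)) with hZ
  set q : Ω × Ω → ℝ := dbl p Z with hq
  have hqp : IsLaw q := dbl_law hp Z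
  have hq0 := hqp.nonneg
  have hpos : ∀ w, 0 < q w → 0 < p w.1 ∧ 0 < p w.2 ∧ M w.1 = M w.2 ∧ b w.1 = b w.2 ∧
      θ w.1 = θ w.2 := by
    intro w hw
    obtain ⟨k1, k2, k3⟩ := dbl_pos hp hw
    rw [hZ] at k3
    simp only [Prod.mk.injEq] at k3
    exact ⟨k1, k2, k3.1, k3.2.1, k3.2.2⟩
  set S : Ω × Ω → ℕ := fun w => scl B j (D w.1) (D w.2) with hS
  have hSj : ∀ w, S w ≤ j := fun w => scl_le _ _ _ _
  have hl2 : 0 < Real.log 2 := Real.log_pos (by norm_num)
  have hBr : (1 : ℝ) ≤ B := by exact_mod_cast hB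
  -- the identity for `M`
  have e1 : CH p M (fun ω => (b ω, θ ω)) + CH p L Z = CH p L (fun ω => (b ω, θ ω)) := by
    have c1 := CH_chain h0 L M (fun ω => (b ω, θ ω))
    have c2 : CH p (fun ω => (L ω, M ω)) (fun ω => (b ω, θ ω)) =
        CH p L (fun ω => (b ω, θ ω)) := by
      refine CH_congr h0 ?_ ?_ (fun _ _ _ _ h => h) (fun _ _ _ _ h => h)
      · intro w w' _ _ h
        simp only [Prod.mk.injEq] at h
        exact h.1.1
      · intro w w' _ _ h
        simp only [hL, Prod.mk.injEq] at h ⊢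
        refine ⟨⟨h.1.1, h.1.2⟩, ?_⟩
        simp only [hM]
        rw [h.1.1, h.1.2, h.2.2]
    have c3 : CH p L (fun ω => (M ω, (b ω, θ ω))) = CH p L Z := rfl
    linarith
  -- the time is almost independent of `L`
  have e2 : CH p L b - d'' ≤ CH p L (fun ω => (b ω, θ ω)) := by
    have c1 := CH_chain h0 L θ b
    have c2 := CH_chain h0 θ L b
    have c3 : CH p (fun ω => (L ω, θ ω)) b = CH p (fun ω => (θ ω, L ω)) b := by
      refine CH_congr h0 ?_ ?_ (fun _ _ _ _ h => h) (fun _ _ _ _ h => h) <;>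
      · intro w w' _ _ h
        simp only [Prod.mk.injEq] at h ⊢
        tauto
    have c4 : CH p L (fun ω => (θ ω, b ω)) = CH p L (fun ω => (b ω, θ ω)) := by
      refine CH_congr h0 ?_ ?_ ?_ ?_
      · intro w w' _ _ h
        exact (Prod.ext_iff.mp h).1
      · intro w w' _ _ h
        exact (Prod.ext_iff.mp h).1
      · intro w w' _ _ h
        simp only [Prod.mk.injEq] at h ⊢
        tauto
      · intro w w' _ _ h
        simp only [Prod.mk.injEq] at h ⊢
        tauto
    linarith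
  -- the copy
  have e3 : CH q (fun w => L w.1) (fun w => (Z w.1, L w.2)) = CH p L Z := CH_ci hp Z L L
  set t : Ω → ℤ := fun ω => ⌊(2 : ℝ) ^ J' * θ ω⌋ with ht'
  -- `M` is a function of the second sample and of the time
  have e4 : CH q (fun w => L w.1) (fun w => (Z w.1, L w.2)) =
      CH q (fun w => L w.1) (fun w => (θ w.1, (L w.2, b w.1))) := by
    refine CH_congr hq0 ?_ ?_ ?_ ?_
    · intro w w' _ _ h
      exact (Prod.ext_iff.mp h).1
    · intro w w' _ _ h
      exact (Prod.ext_iff.mp h).1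
    · intro w w' _ _ h
      simp only [hZ, Prod.mk.injEq] at h ⊢
      tauto
    · intro w w' hw hw' h
      obtain ⟨-, -, m1, -, t1⟩ := hpos w hw
      obtain ⟨-, -, m1', -, t1'⟩ := hpos w' hw'
      simp only [hZ, hL, Prod.mk.injEq] at h ⊢
      refine ⟨⟨?_, h.2.2, h.1⟩, h.2.1.1, h.2.1.2⟩
      rw [m1, m1']
      simp only [hM]
      rw [h.2.1.1, h.2.1.2, ← t1, ← t1', h.1]
  have e5 : CH q (fun w => L w.1) (fun w => (θ w.1, (L w.2, b w.1))) +
      CH q (fun w => θ w.1) (fun w => (L w.2, b w.1)) =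
      CH q (fun w => L w.1) (fun w => (L w.2, b w.1)) +
      CH q (fun w => θ w.1) (fun w => (L w.1, (L w.2, b w.1))) := by
    have c1 := CH_chain hq0 (fun w => L w.1) (fun w => θ w.1) (fun w => (L w.2, b w.1))
    have c2 := CH_chain hq0 (fun w => θ w.1) (fun w => L w.1) (fun w => (L w.2, b w.1))
    have c3 : CH q (fun w => (L w.1, θ w.1)) (fun w => (L w.2, b w.1)) =
        CH q (fun w => (θ w.1, L w.1)) (fun w => (L w.2, b w.1)) := by
      refine CH_congr hq0 ?_ ?_ (fun _ _ _ _ h => h) (fun _ _ _ _ h => h) <;>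
      · intro w w' _ _ h
        simp only [Prod.mk.injEq] at h ⊢
        tauto
    linarith
  -- the digits of the time
  have e5a : CH q (fun w => θ w.1) (fun w => (L w.1, (L w.2, b w.1))) -
      CH q (fun w => θ w.1) (fun w => (L w.2, b w.1)) ≤
      CH q (fun w => t w.1) (fun w => (L w.1, (L w.2, b w.1))) -
      CH q (fun w => t w.1) (fun w => (L w.2, b w.1)) := by
    have key : ∀ (V : Type) (Y : Ω × Ω → V), CH q (fun w => θ w.1) Y =
        CH q (fun w => t w.1) Y + CH q (fun w => θ w.1) (fun w => (t w.1, Y w)) := by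
      intro V Y
      rw [← CH_chain hq0 (fun w => θ w.1) (fun w => t w.1) Y]
      refine CH_congr hq0 ?_ ?_ (fun _ _ _ _ h => h) (fun _ _ _ _ h => h)
      · intro w w' _ _ h
        simp only [Prod.mk.injEq] at h ⊢
        refine ⟨h.1, ?_⟩
        simp only [ht', h.1]
      · intro w w' _ _ h
        simp only [Prod.mk.injEq] at h
        exact h.1.1
    have c1 := key _ (fun w => (L w.1, (L w.2, b w.1)))
    have c2 := key _ (fun w => (L w.2, b w.1))
    have c3 : CH q (fun w => θ w.1) (fun w => (t w.1, (L w.1, (L w.2, b w.1)))) ≤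
        CH q (fun w => θ w.1) (fun w => (t w.1, (L w.2, b w.1))) := by
      refine CH_mono_cond hq0 ?_
      intro w w' _ _ h
      simp only [Prod.mk.injEq] at h ⊢
      tauto
    linarith
  have e6 : J' * Real.log 2 - d' ≤ CH q (fun w => t w.1) (fun w => (L w.2, b w.1)) := by
    have c1 : CH q (fun w => t w.2) (fun w => (L w.2, b w.2)) = CH p t (fun ω => (L ω, b ω)) :=
      (dbl_snd h0).CH t (fun ω => (L ω, b ω))
    have c2 : CH q (fun w => t w.1) (fun w => (L w.2, b w.1)) =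
        CH q (fun w => t w.2) (fun w => (L w.2, b w.2)) := by
      refine CH_congr hq0 ?_ ?_ ?_ ?_
      · intro w w' hw hw' h
        obtain ⟨-, -, -, -, t1⟩ := hpos w hw
        obtain ⟨-, -, -, -, t1'⟩ := hpos w' hw'
        have := (Prod.ext_iff.mp h).1
        simp only [ht', t1, t1'] at this ⊢
        exact this
      · intro w w' hw hw' h
        obtain ⟨-, -, -, -, t1⟩ := hpos w hw
        obtain ⟨-, -, -, -, t1'⟩ := hpos w' hw'
        have := (Prod.ext_iff.mp h).1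
        simp only [ht', ← t1, ← t1'] at this ⊢
        exact this
      · intro w w' hw hw' h
        obtain ⟨-, -, -, b1, -⟩ := hpos w hw
        obtain ⟨-, -, -, b1', -⟩ := hpos w' hw'
        simp only [Prod.mk.injEq] at h ⊢
        exact ⟨h.1, by rw [← b1, ← b1']; exact h.2⟩
      · intro w w' hw hw' h
        obtain ⟨-, -, -, b1, -⟩ := hpos w hw
        obtain ⟨-, -, -, b1', -⟩ := hpos w' hw'
        simp only [Prod.mk.injEq] at h ⊢
        exact ⟨h.1, by rw [b1, b1']; exact h.2⟩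
    rw [c2, c1]
    exact ht
  -- the time given both samples
  have e7 : CH q (fun w => t w.1) (fun w => (L w.1, (L w.2, b w.1))) ≤
      Ex q (fun w => Real.log (7 * 2 ^ (J' - j + S w))) := by
    refine (CH_le_int hq0 hqp.sum_one (fun w => t w.1) (fun w => (L w.1, (L w.2, b w.1)))
      (fun w => 3 * 2 ^ (J' - j + S w)) ?_).trans ?_
    · intro w w' hw hw' h
      simp only [hL, Prod.mk.injEq] at h
      obtain ⟨p1, p2, m1, -, t1⟩ := hpos w hw
      obtain ⟨p1', p2', m1', -, t1'⟩ := hpos w' hw'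
      obtain ⟨⟨ha1, hd1⟩, ⟨ha2, hd2⟩, -⟩ := h
      have hn : (1 : ℝ) ≤ 2 ^ (J' - j + S w) := one_le_pow₀ (by norm_num)
      have key : |(2 : ℝ) ^ J' * θ w.1 - 2 ^ J' * θ w'.1| ≤ 2 * 2 ^ (J' - j + S w) := by
        rcases (hSj w).lt_or_eq with hlt | heq
        · have g1 : |(2 : ℝ) ^ j * (a w.1 + θ w.1 * D w.1) -
              2 ^ j * (a w.2 + θ w.2 * D w.2)| < 1 := Int.abs_sub_lt_one_of_floor_eq_floor m1
          have g2 : |(2 : ℝ) ^ j * (a w'.1 + θ w'.1 * D w'.1) -
              2 ^ j * (a w'.2 + θ w'.2 * D w'.2)| < 1 :=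
            Int.abs_sub_lt_one_of_floor_eq_floor m1'
          rw [← t1] at g1
          rw [← t1', ← ha1, ← ha2, ← hd1, ← hd2] at g2
          have g3 := scl_lt hlt
          have g4 : |(2 : ℝ) ^ j * ((θ w.1 - θ w'.1) * (D w.1 - D w.2))| ≤ 2 := by
            have : (2 : ℝ) ^ j * ((θ w.1 - θ w'.1) * (D w.1 - D w.2)) =
                (2 ^ j * (a w.1 + θ w.1 * D w.1) - 2 ^ j * (a w.2 + θ w.1 * D w.2)) -
                (2 ^ j * (a w.1 + θ w'.1 * D w.1) - 2 ^ j * (a w.2 + θ w'.1 * D w.2)) := by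
              ring
            rw [this]
            exact (abs_sub _ _).trans (by linarith)
          have hj0 : (0 : ℝ) < 2 ^ j := by positivity
          rw [abs_mul, abs_mul, abs_of_pos hj0] at g4
          have g5 : 1 / 2 ^ S w < |D w.1 - D w.2| := by
            refine lt_of_le_of_lt ?_ g3
            exact div_le_div_of_nonneg_right hBr (by positivity)
          have g6 : (2 : ℝ) ^ j * (|θ w.1 - θ w'.1| * (1 / 2 ^ S w)) ≤ 2 := by
            refine le_trans (mul_le_mul_of_nonneg_left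
              (mul_le_mul_of_nonneg_left g5.le (abs_nonneg _)) hj0.le) g4
          rw [← mul_sub, abs_mul, abs_of_pos (by positivity : (0 : ℝ) < 2 ^ J')]
          have g7 : (2 : ℝ) ^ J' = 2 ^ (J' - j) * 2 ^ j := by
            rw [← pow_add]
            congr 1
            omega
          have hS0 : (0 : ℝ) < 2 ^ S w := by positivity
          have g8 : (2 : ℝ) ^ j * |θ w.1 - θ w'.1| ≤ 2 * 2 ^ S w := by
            have : (2 : ℝ) ^ j * (|θ w.1 - θ w'.1| * (1 / 2 ^ S w)) =
                2 ^ j * |θ w.1 - θ w'.1| / 2 ^ S w := by ring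
            rw [this, div_le_iff₀ hS0] at g6
            exact g6
          rw [g7, mul_assoc, pow_add]
          calc (2 : ℝ) ^ (J' - j) * (2 ^ j * |θ w.1 - θ w'.1|) ≤
                2 ^ (J' - j) * (2 * 2 ^ S w) := mul_le_mul_of_nonneg_left g8 (by positivity)
            _ = _ := by ring
        · have hJ : J' - j + S w = J' := by omega
          rw [hJ]
          have g1 := hθ _ p1
          have g2 := hθ _ p1'
          rw [← mul_sub, abs_mul, abs_of_pos (by positivity : (0 : ℝ) < 2 ^ J')]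
          have g3 : |θ w.1 - θ w'.1| ≤ 1 := by
            rw [abs_le]
            constructor <;> linarith [g1.1, g1.2, g2.1, g2.2]
          have : (2 : ℝ) ^ J' * |θ w.1 - θ w'.1| ≤ 2 ^ J' * 1 :=
            mul_le_mul_of_nonneg_left g3 (by positivity)
          have h2 : (0 : ℝ) < 2 ^ J' := by positivity
          linarith
      have k1 := Int.floor_le ((2 : ℝ) ^ J' * θ w.1)
      have k2 := Int.lt_floor_add_one ((2 : ℝ) ^ J' * θ w.1)
      have k3 := Int.floor_le ((2 : ℝ) ^ J' * θ w'.1)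
      have k4 := Int.lt_floor_add_one ((2 : ℝ) ^ J' * θ w'.1)
      simp only [ht']
      push_cast
      rw [abs_le] at key ⊢
      constructor <;> linarith [key.1, key.2]
    · refine Ex_mono hq0 fun w _ => Real.log_le_log (by positivity) ?_
      have hn : (1 : ℝ) ≤ 2 ^ (J' - j + S w) := one_le_pow₀ (by norm_num)
      linarith
  -- the scale
  have hlogj : ∀ (V : Type) (Y : Ω × Ω → V), CH q S Y ≤ Real.log (j + 1) := by
    intro V Y
    have c1 := CH_le_card hq0 hqp.sum_one S Y (fun _ => Finset.range (j + 1))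
      (fun w _ => Finset.mem_range.2 (by have := hSj w; omega))
    refine c1.trans (le_of_eq ?_)
    rw [Ex_const hqp.sum_one, Finset.card_range]
    push_cast
    rfl
  have e8 := CH_le_add hq0 (fun w => L w.1) S (fun w => (L w.2, b w.1))
  have e8a := hlogj _ (fun w => (L w.2, b w.1))
  set A : Ω × Ω → ℤ := fun w => ⌊(2 : ℝ) ^ S w * a w.1⌋ with hA
  have e9 := CH_le_add hq0 (fun w => L w.1) A (fun w => (S w, (L w.2, b w.1)))
  have e9a : CH q A (fun w => (S w, (L w.2, b w.1))) ≤ Real.log (8 * B + 9) := by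
    have c1 := CH_le_int hq0 hqp.sum_one A (fun w => (S w, (L w.2, b w.1)))
      (fun _ => 4 * B + 4) ?_
    · refine c1.trans (le_of_eq ?_)
      rw [Ex_const hqp.sum_one]
      congr 1
      ring
    · intro w w' hw hw' h
      simp only [hL, Prod.mk.injEq] at h
      obtain ⟨hSS, ⟨ha2, hd2⟩, -⟩ := h
      have near : ∀ v : Ω × Ω, 0 < q v → |(2 : ℝ) ^ S v * a v.1 - 2 ^ S v * a v.2| ≤ 2 * B + 1 := by
        intro v hv
        obtain ⟨p1, p2, m1, -, t1⟩ := hpos v hv
        have g1 : |(2 : ℝ) ^ j * (a v.1 + θ v.1 * D v.1) -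
            2 ^ j * (a v.2 + θ v.2 * D v.2)| < 1 := Int.abs_sub_lt_one_of_floor_eq_floor m1
        rw [← t1, ← mul_sub, abs_mul, abs_of_pos (by positivity : (0 : ℝ) < 2 ^ j)] at g1
        have g2 : |D v.1 - D v.2| ≤ 2 * B / 2 ^ S v := scl_spec (hD _ p1) (hD _ p2)
        have hS0 : (0 : ℝ) < 2 ^ S v := by positivity
        have g3 : (2 : ℝ) ^ S v * |(a v.1 + θ v.1 * D v.1) - (a v.2 + θ v.1 * D v.2)| ≤ 1 := by
          refine le_trans (mul_le_mul_of_nonneg_right (pow_le_pow_right₀ (by norm_num) (hSj v))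
            (abs_nonneg _)) g1.le
        have g4 : (2 : ℝ) ^ S v * (θ v.1 * |D v.1 - D v.2|) ≤ 2 * B := by
          have k1 := hθ _ p1
          have k2 : θ v.1 * |D v.1 - D v.2| ≤ 1 * (2 * B / 2 ^ S v) :=
            mul_le_mul k1.2 g2 (abs_nonneg _) zero_le_one
          have k3 := mul_le_mul_of_nonneg_left k2 hS0.le
          have k4 : (2 : ℝ) ^ S v * (1 * (2 * B / 2 ^ S v)) = 2 * B := by
            field_simp
          linarith
        have e : (2 : ℝ) ^ S v * a v.1 - 2 ^ S v * a v.2 =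
            2 ^ S v * ((a v.1 + θ v.1 * D v.1) - (a v.2 + θ v.1 * D v.2)) -
            2 ^ S v * (θ v.1 * (D v.1 - D v.2)) := by ring
        rw [e]
        have k5 : |(2 : ℝ) ^ S v * ((a v.1 + θ v.1 * D v.1) - (a v.2 + θ v.1 * D v.2))| ≤ 1 := by
          rw [abs_mul, abs_of_pos hS0]
          exact g3
        have k6 : |(2 : ℝ) ^ S v * (θ v.1 * (D v.1 - D v.2))| ≤ 2 * B := by
          rw [abs_mul, abs_of_pos hS0, abs_mul, abs_of_nonneg (hθ _ p1).1]
          exact g4
        exact (abs_sub _ _).trans (by linarith)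
      have n1 := near w hw
      have n2 := near w' hw'
      rw [← hSS, ← ha2] at n2
      have k1 := Int.floor_le ((2 : ℝ) ^ S w * a w.1)
      have k2 := Int.lt_floor_add_one ((2 : ℝ) ^ S w * a w.1)
      have k3 := Int.floor_le ((2 : ℝ) ^ S w * a w'.1)
      have k4 := Int.lt_floor_add_one ((2 : ℝ) ^ S w * a w'.1)
      simp only [hA]
      rw [← hSS]
      push_cast
      rw [abs_le] at n1 n2 ⊢
      constructor <;> linarith [n1.1, n1.2, n2.1, n2.2]
  have e9b : CH q (fun w => L w.1) (fun w => (A w, (S w, (L w.2, b w.1)))) ≤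
      CH q (fun w => L w.1) (fun w => (A w, (S w, b w.1))) := by
    refine CH_mono_cond hq0 ?_
    intro w w' _ _ h
    simp only [Prod.mk.injEq] at h ⊢
    tauto
  have e9c : CH q (fun w => L w.1) (fun w => (S w, b w.1)) =
      CH q A (fun w => (S w, b w.1)) +
        CH q (fun w => L w.1) (fun w => (A w, (S w, b w.1))) := by
    rw [← CH_chain hq0 (fun w => L w.1) A (fun w => (S w, b w.1))]
    refine CH_congr hq0 ?_ ?_ (fun _ _ _ _ h => h) (fun _ _ _ _ h => h)
    · intro w w' _ _ h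
      simp only [hL, Prod.mk.injEq] at h ⊢
      refine ⟨h.1, ?_⟩
      simp only [hA]
      rw [h.1.1, h.2.1]
    · intro w w' _ _ h
      simp only [Prod.mk.injEq] at h
      exact h.1.1
  have e9d : CH q (fun w => L w.1) (fun w => (S w, b w.1)) ≤ CH p L b := by
    have c1 : CH q (fun w => L w.1) (fun w => b w.1) = CH p L b := (dbl_fst h0).CH L b
    rw [← c1]
    refine CH_mono_cond hq0 ?_
    intro w w' _ _ h
    exact (Prod.ext_iff.mp h).2
  -- the digits of `a`
  set Aj : Ω → ℤ := fun ω => ⌊(2 : ℝ) ^ j * a ω⌋ with hAj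
  have e10 := CH_le_add hq0 (fun w => Aj w.1) A (fun w => (S w, b w.1))
  have e10a : CH q (fun w => Aj w.1) (fun w => (A w, (S w, b w.1))) ≤
      Ex q (fun w => Real.log (3 * 2 ^ (j - S w))) := by
    refine (CH_le_int hq0 hqp.sum_one (fun w => Aj w.1) (fun w => (A w, (S w, b w.1)))
      (fun w => 2 ^ (j - S w)) ?_).trans ?_
    · intro w w' hw hw' h
      simp only [Prod.mk.injEq] at h
      obtain ⟨hAA, hSS, -⟩ := h
      have g1 : |(2 : ℝ) ^ S w * a w.1 - 2 ^ S w' * a w'.1| < 1 :=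
        Int.abs_sub_lt_one_of_floor_eq_floor hAA
      rw [← hSS] at g1
      have hj1 : (2 : ℝ) ^ j = 2 ^ (j - S w) * 2 ^ S w := by
        rw [← pow_add]
        congr 1
        have := hSj w
        omega
      have g2 : |(2 : ℝ) ^ j * a w.1 - 2 ^ j * a w'.1| < ((2 ^ (j - S w) : ℤ) : ℝ) := by
        push_cast
        have : (2 : ℝ) ^ j * a w.1 - 2 ^ j * a w'.1 =
            2 ^ (j - S w) * (2 ^ S w * a w.1 - 2 ^ S w * a w'.1) := by
          rw [hj1]
          ring
        rw [this, abs_mul, abs_of_pos (by positivity : (0 : ℝ) < 2 ^ (j - S w))]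
        have h1 : (0 : ℝ) < 2 ^ (j - S w) := by positivity
        nlinarith
      have k1 := Int.floor_le ((2 : ℝ) ^ j * a w.1)
      have k2 := Int.lt_floor_add_one ((2 : ℝ) ^ j * a w.1)
      have k3 := Int.floor_le ((2 : ℝ) ^ j * a w'.1)
      have k4 := Int.lt_floor_add_one ((2 : ℝ) ^ j * a w'.1)
      simp only [hAj]
      rw [abs_lt] at g2
      have u1 : ⌊(2 : ℝ) ^ j * a w.1⌋ - ⌊(2 : ℝ) ^ j * a w'.1⌋ < 2 ^ (j - S w) + 1 := by
        have : ((⌊(2 : ℝ) ^ j * a w.1⌋ - ⌊(2 : ℝ) ^ j * a w'.1⌋ : ℤ) : ℝ) <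
            ((2 ^ (j - S w) + 1 : ℤ) : ℝ) := by
          push_cast at g2 ⊢
          linarith [g2.1, g2.2]
        exact_mod_cast this
      have u2 : -(2 ^ (j - S w) + 1) < ⌊(2 : ℝ) ^ j * a w.1⌋ - ⌊(2 : ℝ) ^ j * a w'.1⌋ := by
        have : ((-(2 ^ (j - S w) + 1) : ℤ) : ℝ) <
            ((⌊(2 : ℝ) ^ j * a w.1⌋ - ⌊(2 : ℝ) ^ j * a w'.1⌋ : ℤ) : ℝ) := by
          push_cast at g2 ⊢
          linarith [g2.1, g2.2]
        exact_mod_cast this
      have u3 : |⌊(2 : ℝ) ^ j * a w.1⌋ - ⌊(2 : ℝ) ^ j * a w'.1⌋| ≤ 2 ^ (j - S w) := by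
        rw [abs_le]
        constructor <;> omega
      exact_mod_cast u3
    · refine Ex_mono hq0 fun w _ => Real.log_le_log (by positivity) ?_
      have hn : (1 : ℝ) ≤ 2 ^ (j - S w) := one_le_pow₀ (by norm_num)
      linarith
  have e11 := CH_le_add hq0 (fun w => Aj w.1) S (fun w => b w.1)
  have e11a := hlogj _ (fun w => b w.1)
  have e11b : CH q (fun w => Aj w.1) (fun w => b w.1) = CH p Aj b := (dbl_fst h0).CH Aj b
  -- the scales cancel
  have e12 : Ex q (fun w => Real.log (3 * 2 ^ (j - S w))) +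
      Ex q (fun w => Real.log (7 * 2 ^ (J' - j + S w))) =
      Real.log 3 + Real.log 7 + J' * Real.log 2 := by
    rw [← Ex_add]
    rw [← Ex_const hqp.sum_one (Real.log 3 + Real.log 7 + J' * Real.log 2)]
    congr 1
    funext w
    rw [log_pow_mul (by norm_num), log_pow_mul (by norm_num)]
    have h1 : ((j - S w : ℕ) : ℝ) + ((J' - j + S w : ℕ) : ℝ) = J' := by
      have h2 : (j - S w) + (J' - j + S w) = J' := by
        have := hSj w
        omega
      exact_mod_cast h2
    nlinarith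
  linarith

/-- **LEMMA C** for a discrete time. -/
theorem time_shadow_nat {Ω β : Type} [Fintype Ω] {p : Ω → ℝ} (hp : IsLaw p) (b : Ω → β)
    (a D : Ω → ℝ) (T : Ω → ℕ) {j J' B : ℕ} (hj : j ≤ J') (hB : 1 ≤ B)
    (hD : ∀ ω, 0 < p ω → |D ω| ≤ B) (hT : ∀ ω, 0 < p ω → T ω < 2 ^ J') {d d' : ℝ}
    (ha : j * Real.log 2 - d ≤ CH p (fun ω => ⌊(2 : ℝ) ^ j * a ω⌋) b)
    (ht : J' * Real.log 2 - d' ≤ CH p T (fun ω => ((a ω, D ω), b ω))) :
    j * Real.log 2 - (d + 2 * d' + 2 * Real.log (j + 1) + Real.log (8 * B + 9) + Real.log 7 +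
      Real.log 3) ≤
      CH p (fun ω => ⌊(2 : ℝ) ^ j * (a ω + T ω / 2 ^ J' * D ω)⌋) (fun ω => (b ω, T ω)) := by
  classical
  have h0 := hp.nonneg
  have hJ0 : (0 : ℝ) < 2 ^ J' := by positivity
  set θ : Ω → ℝ := fun ω => T ω / 2 ^ J' with hθ
  have hinj : ∀ ω ω', θ ω = θ ω' → T ω = T ω' := by
    intro ω ω' h
    simp only [hθ] at h
    have : (T ω : ℝ) = T ω' := by
      field_simp at h
      exact h
    exact_mod_cast this
  have hflo : ∀ ω, ⌊(2 : ℝ) ^ J' * θ ω⌋ = (T ω : ℤ) := by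
    intro ω
    simp only [hθ]
    have : (2 : ℝ) ^ J' * ((T ω : ℝ) / 2 ^ J') = ((T ω : ℤ) : ℝ) := by
      push_cast
      field_simp
    rw [this, Int.floor_intCast]
  have hU : CH p T b ≤ J' * Real.log 2 := by
    have c1 := CH_le_card h0 hp.sum_one T b (fun _ => Finset.range (2 ^ J'))
      (fun ω hω => Finset.mem_range.2 (hT ω hω))
    refine c1.trans (le_of_eq ?_)
    rw [Ex_const hp.sum_one, Finset.card_range]
    push_cast
    rw [Real.log_pow]
  have k1 : ∀ (V : Type) (Y : Ω → V), CH p θ Y = CH p T Y := by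
    intro V Y
    refine CH_congr h0 ?_ ?_ (fun _ _ _ _ h => h) (fun _ _ _ _ h => h)
    · intro w w' _ _ h
      exact hinj _ _ (Prod.ext_iff.mp h).1
    · intro w w' _ _ h
      have h' : T w = T w' := (Prod.ext_iff.mp h).1
      simp only [hθ]
      rw [h']
  have k2 : ∀ (V : Type) (Y : Ω → V), CH p (fun ω => ⌊(2 : ℝ) ^ J' * θ ω⌋) Y = CH p T Y := by
    intro V Y
    refine CH_congr h0 ?_ ?_ (fun _ _ _ _ h => h) (fun _ _ _ _ h => h)
    · intro w w' _ _ h
      have := (Prod.ext_iff.mp h).1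
      simp only [hflo] at this
      exact_mod_cast this
    · intro w w' _ _ h
      have := (Prod.ext_iff.mp h).1
      simp only [hflo]
      exact_mod_cast this
  have main := time_shadow hp b a D θ (d := d) (d' := d') (d'' := d') hj hB hD
    (fun ω hω => by
      have h1 : (T ω : ℝ) < 2 ^ J' := by exact_mod_cast hT ω hω
      simp only [hθ]
      refine ⟨by positivity, ?_⟩
      rw [div_le_one hJ0]
      exact h1.le) ha (by rw [k2]; exact ht) (by
      rw [k1, k1]
      linarith)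
  have e : CH p (fun ω => ⌊(2 : ℝ) ^ j * (a ω + θ ω * D ω)⌋) (fun ω => (b ω, θ ω)) =
      CH p (fun ω => ⌊(2 : ℝ) ^ j * (a ω + T ω / 2 ^ J' * D ω)⌋) (fun ω => (b ω, T ω)) := by
    refine CH_congr h0 (fun _ _ _ _ h => (Prod.ext_iff.mp h).1)
      (fun _ _ _ _ h => (Prod.ext_iff.mp h).1) ?_ ?_
    · intro w w' _ _ h
      simp only [Prod.mk.injEq] at h ⊢
      exact ⟨h.1, hinj _ _ h.2⟩
    · intro w w' _ _ h
      simp only [Prod.mk.injEq, hθ] at h ⊢
      exact ⟨h.1, by rw [h.2]⟩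
  rw [e] at main
  linarith

end Pool.S6U
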