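import Pool.Agent.H7.S6.AzSec
import Pool.Agent.H84.S6.Ci

/-!
# CROSS, step 3 in the class form

`secg_of`: the class form of `az_step3`, with the output `SecG` of helper84. The
function `nf` is the one which the leaf theorem of the A-zoom asks for.
-/

set_option autoImplicit false

namespace Pool.ZCL

open Finset Real
open Pool.Agent.H49.Ent Pool.Agent.H32.Dense Pool.STK Pool.KA Pool.KSAT Pool.K2S Pool.PB Pool.S6C

/-- **CROSS, step 3**, class form. -/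
theorem secg_of (hJ : JSTT 3) {c h : ℝ} (hc : 0 < c) (hh : 0 < h) :
    ∃ D Cs E₀ : ℕ, ∀ E ≥ E₀, 0 < E → ∃ nf : ℕ → ℕ, ∀ N d : ℕ, N = E * d → ∀ K₁ : ℕ,
      ∃ g : ℝ, 0 < g ∧ g ≤ 1 ∧ ∀ (S : PCl 3) (a R h₁ : ℝ) (i₀ : Fin 3) (Q pi : ℝ),
        AzH S a R h₁ i₀ Q pi → BTail S c Q → ∀ e : ℝ, 0 < e → ∀ δ : ℝ, 0 < δ →
        ∃ τ > 0, ∀ w s : ℝ, 0 ≤ w → w + max s 0 + e ≤ Q → pi - e * g / 16 ≤ s →
        Clp S (fun J F A => ∀ (A₂ : F.Ω → Prop) (z : F.Ω → Fin 3 → ℝ), Sub A₂ A →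
          Real.exp (-(τ * J)) * Pe F.p A ≤ Pe F.p A₂ →
          AzF F i₀ ⌊Q * J⌋₊ ⌊s * J⌋₊ ⌊w * J⌋₊ A₂ z →
          ∀ (hA₂ : IsLaw (cond F.p A₂ True)) (hw : ⌊w * J⌋₊ + azJ Q w s J ≤ J) (i₁ : Fin 3)
            (K i p : ℕ), K ≤ K₁ → nf K ≤ N → i ≤ 2 * d → N ≤ p + d → p < N →
          Ch (azG F i₀ Q w s A₂ z hA₂ hw) i₁ ⌊h * azJ Q w s J⌋₊ A₂ →
          Lab (azG F i₀ Q w s A₂ z hA₂ hw) i₁ (azJ Q w s J) K (i * (azJ Q w s J / N))
            (i * (azJ Q w s J / N)) (p * (azJ Q w s J / N)) A₂ →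
          SecG F i₀ Q w s D (fun J' => (N - Cs * d) * (J' / N)) δ A) := by
  classical
  obtain ⟨D, Cs, E₀, h1⟩ := az_step3 hJ hc hh
  refine ⟨D, Cs, E₀, fun E hE hE0 => ?_⟩
  choose nf h2 using h1 E hE hE0
  refine ⟨nf, fun N d hNd K₁ => ?_⟩
  have hg : ∀ K : ℕ, ∃ g : ℝ, 0 < g ∧ (nf K ≤ N →
      ∀ (S : PCl 3) (a R h₁ : ℝ) (i₀ : Fin 3) (Q pi : ℝ),
        AzH S a R h₁ i₀ Q pi → BTail S c Q → ∀ e : ℝ, 0 < e → ∀ δ κ : ℝ, 0 < δ → 0 < κ →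
        ∃ ψ₁ > 0, ∀ w s : ℝ, 0 ≤ w → w + max s 0 + e ≤ Q → pi - e * g / 16 ≤ s →
        ∃ J₁ : ℕ, ∀ J ≥ J₁, ∀ (F : Fam 3 J) (A : F.Ω → Prop), S.St ψ₁ J F A →
        ∀ z : F.Ω → Fin 3 → ℝ, AzF F i₀ ⌊Q * J⌋₊ ⌊s * J⌋₊ ⌊w * J⌋₊ A z →
        ∀ (hA : IsLaw (cond F.p A True)) (hw : ⌊w * J⌋₊ + azJ Q w s J ≤ J),
          e / 2 * J ≤ azJ Q w s J ∧
          ∀ (i₁ : Fin 3) (i p : ℕ), i ≤ 2 * d → N ≤ p + d → p < N →
          Ch (azG F i₀ Q w s A z hA hw) i₁ ⌊h * azJ Q w s J⌋₊ A →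
          Lab (azG F i₀ Q w s A z hA hw) i₁ (azJ Q w s J) K (i * (azJ Q w s J / N))
            (i * (azJ Q w s J / N)) (p * (azJ Q w s J / N)) A →
          ∃ (V : Type) (v : F.Ω → V) (B : F.Ω → Prop), Sub B A ∧
            Sel (azG F i₀ Q w s A z hA hw) v B ∧
            Real.exp (-(δ * azJ Q w s J)) ≤ Pe (cond F.p A True) B ∧
            ∀ ω, 0 < cond F.p A True ω → B ω →
              ∀ hl : IsLaw (cond (cond F.p A True) v (v ω)), ∃ B' : F.Ω → Prop,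
                Sub B' (fun ω' => B ω' ∧ v ω' = v ω) ∧
                Real.exp (-(κ * azJ Q w s J)) *
                    Pe (cond (cond F.p A True) v (v ω)) (fun ω' => B ω' ∧ v ω' = v ω) ≤
                  Pe (cond (cond F.p A True) v (v ω)) B' ∧
                ClG ((azG F i₀ Q w s A z hA hw).res v (v ω) hl) i₁ (azJ Q w s J) D 0
                  ((N - Cs * d) * (azJ Q w s J / N)) B') := by
    intro K
    by_cases hK : nf K ≤ N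
    · obtain ⟨g, g0, -, h3⟩ := h2 K N hK d hNd
      exact ⟨g, g0, fun _ S a R h₁ i₀ Q pi => h3⟩
    · exact ⟨1, one_pos, fun h => absurd h hK⟩
  choose gK hgK0 hgK using hg
  obtain ⟨μ, hμ0, hμ⟩ := exists_low hgK0 K₁
  refine ⟨min μ 1, lt_min hμ0 one_pos, min_le_right _ _, ?_⟩
  intro S a R h₁ i₀ Q pi H hT e he δ hδ
  have hψ : ∀ K : ℕ, ∃ ψ₁ : ℝ, 0 < ψ₁ ∧ (nf K ≤ N → ∀ w s : ℝ, 0 ≤ w → w + max s 0 + e ≤ Q →
        pi - e * gK K / 16 ≤ s →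
        ∃ J₁ : ℕ, ∀ J ≥ J₁, ∀ (F : Fam 3 J) (A : F.Ω → Prop), S.St ψ₁ J F A →
        ∀ z : F.Ω → Fin 3 → ℝ, AzF F i₀ ⌊Q * J⌋₊ ⌊s * J⌋₊ ⌊w * J⌋₊ A z →
        ∀ (hA : IsLaw (cond F.p A True)) (hw : ⌊w * J⌋₊ + azJ Q w s J ≤ J),
          e / 2 * J ≤ azJ Q w s J ∧
          ∀ (i₁ : Fin 3) (i p : ℕ), i ≤ 2 * d → N ≤ p + d → p < N →
          Ch (azG F i₀ Q w s A z hA hw) i₁ ⌊h * azJ Q w s J⌋₊ A →
          Lab (azG F i₀ Q w s A z hA hw) i₁ (azJ Q w s J) K (i * (azJ Q w s J / N))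
            (i * (azJ Q w s J / N)) (p * (azJ Q w s J / N)) A →
          ∃ (V : Type) (v : F.Ω → V) (B : F.Ω → Prop), Sub B A ∧
            Sel (azG F i₀ Q w s A z hA hw) v B ∧
            Real.exp (-(δ * azJ Q w s J)) ≤ Pe (cond F.p A True) B ∧
            ∀ ω, 0 < cond F.p A True ω → B ω →
              ∀ hl : IsLaw (cond (cond F.p A True) v (v ω)), ∃ B' : F.Ω → Prop,
                Sub B' (fun ω' => B ω' ∧ v ω' = v ω) ∧
                Real.exp (-(δ * azJ Q w s J)) *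
                    Pe (cond (cond F.p A True) v (v ω)) (fun ω' => B ω' ∧ v ω' = v ω) ≤
                  Pe (cond (cond F.p A True) v (v ω)) B' ∧
                ClG ((azG F i₀ Q w s A z hA hw).res v (v ω) hl) i₁ (azJ Q w s J) D 0
                  ((N - Cs * d) * (azJ Q w s J / N)) B') := by
    intro K
    by_cases hK : nf K ≤ N
    · obtain ⟨ψ₁, p0, h3⟩ := hgK K hK S a R h₁ i₀ Q pi H hT e he δ δ hδ hδ
      exact ⟨ψ₁, p0, fun _ => h3⟩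
    · exact ⟨1, one_pos, fun h => absurd h hK⟩
  choose ψK hψK0 hψK using hψ
  obtain ⟨ν, hν0, hν⟩ := exists_low hψK0 K₁
  refine ⟨min (ν / 2) δ, lt_min (by linarith) hδ, fun w s hw0 hws hs => ?_⟩
  have hJ₁ : ∀ K : ℕ, ∃ J₁ : ℕ, K ≤ K₁ → nf K ≤ N →
        ∀ J ≥ J₁, ∀ (F : Fam 3 J) (A : F.Ω → Prop), S.St (ψK K) J F A →
        ∀ z : F.Ω → Fin 3 → ℝ, AzF F i₀ ⌊Q * J⌋₊ ⌊s * J⌋₊ ⌊w * J⌋₊ A z →
        ∀ (hA : IsLaw (cond F.p A True)) (hw : ⌊w * J⌋₊ + azJ Q w s J ≤ J),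
          e / 2 * J ≤ azJ Q w s J ∧
          ∀ (i₁ : Fin 3) (i p : ℕ), i ≤ 2 * d → N ≤ p + d → p < N →
          Ch (azG F i₀ Q w s A z hA hw) i₁ ⌊h * azJ Q w s J⌋₊ A →
          Lab (azG F i₀ Q w s A z hA hw) i₁ (azJ Q w s J) K (i * (azJ Q w s J / N))
            (i * (azJ Q w s J / N)) (p * (azJ Q w s J / N)) A →
          ∃ (V : Type) (v : F.Ω → V) (B : F.Ω → Prop), Sub B A ∧
            Sel (azG F i₀ Q w s A z hA hw) v B ∧
            Real.exp (-(δ * azJ Q w s J)) ≤ Pe (cond F.p A True) B ∧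
            ∀ ω, 0 < cond F.p A True ω → B ω →
              ∀ hl : IsLaw (cond (cond F.p A True) v (v ω)), ∃ B' : F.Ω → Prop,
                Sub B' (fun ω' => B ω' ∧ v ω' = v ω) ∧
                Real.exp (-(δ * azJ Q w s J)) *
                    Pe (cond (cond F.p A True) v (v ω)) (fun ω' => B ω' ∧ v ω' = v ω) ≤
                  Pe (cond (cond F.p A True) v (v ω)) B' ∧
                ClG ((azG F i₀ Q w s A z hA hw).res v (v ω) hl) i₁ (azJ Q w s J) D 0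
                  ((N - Cs * d) * (azJ Q w s J / N)) B' := by
    intro K
    by_cases hK : K ≤ K₁ ∧ nf K ≤ N
    · obtain ⟨J₁, h3⟩ := hψK K hK.2 w s hw0 hws (by
        have h4 := mul_le_mul_of_nonneg_left ((min_le_left μ 1).trans (hμ K hK.1)) he.le
        linarith)
      exact ⟨J₁, fun _ _ => h3⟩
    · exact ⟨0, fun a1 a2 => absurd ⟨a1, a2⟩ hK⟩
  choose JK hJK using hJ₁
  refine Clp.of (S := S) (τ := ν / 2) (by linarith) (∑ K ∈ range (K₁ + 1), JK K)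
    fun J hJJ F A hSt => ?_
  intro A₂ z hA₂A hPA₂ hz hA₂ hw i₁ K i p hK hKN hi hp hpN hCh hLab
  have hJr : (0 : ℝ) ≤ J := Nat.cast_nonneg J
  have hJK1 : JK K ≤ J := by
    refine le_trans ?_ hJJ
    exact Finset.single_le_sum (f := JK) (fun _ _ => Nat.zero_le _)
      (Finset.mem_range.2 (by omega : K < K₁ + 1))
  have hStA₂ : S.St (ψK K) J F A₂ := by
    have h3 := S.res (τ' := ν / 2) (by linarith) hSt hA₂A (le_trans
      (mul_le_mul_of_nonneg_right (Real.exp_le_exp.2 (by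
        have := mul_le_mul_of_nonneg_right (min_le_left (ν / 2) δ) hJr
        linarith)) (Pe_nonneg F.isLaw A)) hPA₂)
    refine S.mono ?_ h3
    have := hν K hK
    linarith
  obtain ⟨-, h4⟩ := hJK K hK hKN J hJK1 F A₂ hStA₂ z hz hA₂ hw
  obtain ⟨V, v, B, -, k2, k3, k4⟩ := h4 i₁ i p hi hp hpN hCh hLab
  refine ⟨A₂, z, hA₂A, le_trans (mul_le_mul_of_nonneg_right (Real.exp_le_exp.2 (by
      have := mul_le_mul_of_nonneg_right (min_le_right (ν / 2) δ) hJr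
      linarith)) (Pe_nonneg F.isLaw A)) hPA₂, hz, hA₂, hw, i₁, V, v, B, k2, k3, k4⟩

end Pool.ZCL
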